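import Pool.Agent.Y110.FJ.Stm5

/-!
# Groups of locally constant functions, extended by a group (task FJ-SIMP of helper110)
-/

set_option autoImplicit false

namespace Pool.Agent.Y397.FJ

open Pool.Agent.Y462.SS (Closed)
open Pool.Agent.Y110.FJ
open Pool.Agent.Y70.FJ (U)

/-- multiplication of the conjugating element by an element of the kernel (copy of a lemma of
`Y110/FJ/Tgp.lean`, to keep the imports small) -/
theorem realized_mul' {C : ∀ (G : Type) [Group G], Prop} {G : Type} [Group G] {N : Subgroup G}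
    [N.Normal] {q n : G} (hn : n ∈ N)
    (h : ∀ E : Set G, E.Finite → E ⊆ N → Realized C q E) (E : Set G) (hE : E.Finite)
    (hEN : E ⊆ N) : Realized C (n * q) E := by
  have hn' : q⁻¹ * n * q ∈ N := by
    have := (inferInstance : N.Normal).conj_mem n hn q⁻¹
    rwa [inv_inv] at this
  let K' : Subgroup G := Subgroup.closure ((E ∪ {q⁻¹ * n * q}) ∪
    (fun x => q * x * q⁻¹) '' (E ∪ {q⁻¹ * n * q}))
  obtain ⟨P, _, f, p, hP, hf, hfp⟩ : ∃ (P : Type) (_ : Group P) (f : ↥K' →* P) (p : P),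
      C P ∧ Function.Injective f ∧ ∀ x y : ↥K', (x : G) ∈ E ∪ {q⁻¹ * n * q} →
        (y : G) = q * x * q⁻¹ → f y = p * f x * p⁻¹ :=
    h (E ∪ {q⁻¹ * n * q}) (hE.union (Set.finite_singleton _))
      (by rintro x (hx | rfl); exacts [hEN hx, hn'])
  have hnK : n ∈ K' := by
    apply Subgroup.subset_closure
    right
    exact ⟨q⁻¹ * n * q, Or.inr rfl, by group⟩
  have hxK : ∀ x ∈ E, x ∈ K' := fun x hx => Subgroup.subset_closure (Or.inl (Or.inl hx))
  have hqK : ∀ x ∈ E, q * x * q⁻¹ ∈ K' := fun x hx =>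
    Subgroup.subset_closure (Or.inr ⟨x, Or.inl hx, rfl⟩)
  have hle : Subgroup.closure (E ∪ (fun x => n * q * x * (n * q)⁻¹) '' E) ≤ K' := by
    rw [Subgroup.closure_le]
    rintro x (hx | ⟨x, hx, rfl⟩)
    · exact hxK x hx
    · have h1 : n * q * x * (n * q)⁻¹ = n * (q * x * q⁻¹) * n⁻¹ := by group
      show n * q * x * (n * q)⁻¹ ∈ K'
      rw [h1]
      exact K'.mul_mem (K'.mul_mem hnK (hqK x hx)) (K'.inv_mem hnK)
  refine ⟨P, inferInstance, f.comp (Subgroup.inclusion hle), f ⟨n, hnK⟩ * p, hP,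
    hf.comp (Subgroup.inclusion_injective hle), ?_⟩
  intro x y hx hy
  have h1 := hfp ⟨x, hxK x hx⟩ ⟨q * x * q⁻¹, hqK x hx⟩ (Or.inl hx) rfl
  have h2 : Subgroup.inclusion hle y =
      (⟨n, hnK⟩ : K') * ⟨q * x * q⁻¹, hqK x hx⟩ * (⟨n, hnK⟩ : K')⁻¹ := by
    apply Subtype.ext
    show (y : G) = n * (q * x * q⁻¹) * n⁻¹
    rw [hy]
    group
  have h3 : (Subgroup.inclusion hle x) = (⟨x, hxK x hx⟩ : K') := rfl
  rw [MonoidHom.comp_apply, MonoidHom.comp_apply, h2, h3, map_mul, map_mul, map_inv, h1]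
  group

/-- a finite power of a group in `C` is in `C` -/
theorem pow_mem (C : ∀ (G : Type) [Group G], Prop) (hC : Closed C) (A : Type) [Group A] (hA : C A)
    {V : Type} (σ : Finset V) : C (σ → A) := by
  classical
  induction σ using Finset.induction_on with
  | empty =>
    refine hC.of_injective _ _ (1 : ((∅ : Finset V) → A) →* Multiplicative ℤ) ?_ hC.int
    intro x y _
    funext v
    exact absurd v.2 (Finset.notMem_empty _)
  | insert a s ha ih =>
    let f : (↥(insert a s : Finset V) → A) →* A × (s → A) :=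
      MonoidHom.prod (Pi.evalMonoidHom (fun _ : ↥(insert a s : Finset V) => A)
          ⟨a, Finset.mem_insert_self a s⟩)
        (MonoidHom.pi fun v : s => Pi.evalMonoidHom (fun _ : ↥(insert a s : Finset V) => A)
          ⟨v.1, Finset.mem_insert_of_mem v.2⟩)
    refine hC.of_injective _ _ f ?_ (hC.prod _ _ hA ih)
    intro x y hxy
    have h1 : x ⟨a, Finset.mem_insert_self a s⟩ = y ⟨a, Finset.mem_insert_self a s⟩ :=
      congrArg Prod.fst hxy
    have h2 : ∀ v : s, x ⟨v.1, Finset.mem_insert_of_mem v.2⟩ =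
        y ⟨v.1, Finset.mem_insert_of_mem v.2⟩ := fun v => congrFun (congrArg Prod.snd hxy) v
    funext v
    obtain ⟨v, hv⟩ := v
    rcases Finset.mem_insert.1 hv with h | h
    · subst h
      exact h1
    · exact h2 ⟨v, h⟩

theorem pow_mem' (C : ∀ (G : Type) [Group G], Prop) (hC : Closed C) (A : Type) [Group A] (hA : C A)
    (V : Type) [Finite V] : C (V → A) := by
  classical
  have := Fintype.ofFinite V
  refine hC.of_injective _ _ (MonoidHom.pi fun v : (Finset.univ : Finset V) =>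
    Pi.evalMonoidHom (fun _ : V => A) v.1) ?_ (pow_mem C hC A hA (Finset.univ : Finset V))
  intro x y hxy
  funext v
  exact congrFun hxy ⟨v, Finset.mem_univ v⟩

/-- iterates of a map of a finite set are eventually periodic -/
theorem exists_iter {K : Type} [Finite K] (f : K → K) :
    ∃ i m : ℕ, 0 < m ∧ ∀ n ≥ i, ∀ t : ℕ, f^[n + m * t] = f^[n] := by
  obtain ⟨i, j, hij, h⟩ := Finite.exists_ne_map_eq_of_infinite (fun n : ℕ => f^[n])
  wlog hlt : i < j generalizing i j
  · exact this j i hij.symm h.symm (lt_of_le_of_ne (not_lt.1 hlt) hij.symm)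
  refine ⟨i, j - i, by omega, ?_⟩
  have h1 : ∀ n ≥ i, f^[n + (j - i)] = f^[n] := by
    intro n hn
    obtain ⟨r, rfl⟩ := Nat.exists_eq_add_of_le' hn
    have e : r + i + (j - i) = r + j := by omega
    rw [e, Function.iterate_add, Function.iterate_add]
    have h' : f^[i] = f^[j] := h
    rw [h']
  intro n hn t
  induction t with
  | zero => rw [mul_zero, add_zero]
  | succ t ih =>
    rw [mul_add, mul_one, ← add_assoc, h1 _ (by omega), ih]

/-- biinfinite paths through the edges of a finite graph, periodic near both ends -/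
theorem exists_path {K : Type} [Finite K] (R : K → K → Prop) (hn : ∀ k, ∃ l, R k l)
    (hp : ∀ k, ∃ l, R l k) :
    ∃ m : ℕ, 0 < m ∧ ∃ p : {e : K × K // R e.1 e.2} → ℤ → K,
      (∀ e n, R (p e (n - 1)) (p e n)) ∧ (∀ e, p e (-1) = e.1.1) ∧ (∀ e, p e 0 = e.1.2) ∧
      ∃ b : ℤ, ∀ e, ∀ n : ℤ, b ≤ n → p e (n + m) = p e n ∧ p e (-n - m) = p e (-n) := by
  choose nxt hnxt using hn
  choose prv hprv using hp
  obtain ⟨i1, m1, hm1, h1⟩ := exists_iter nxt
  obtain ⟨i2, m2, hm2, h2⟩ := exists_iter prv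
  let p : {e : K × K // R e.1 e.2} → ℤ → K := fun e n =>
    match n with
    | Int.ofNat i => nxt^[i] e.1.2
    | Int.negSucc i => prv^[i] e.1.1
  have hpp : ∀ e (i : ℕ), p e (i : ℤ) = nxt^[i] e.1.2 := fun e i => rfl
  have hpm : ∀ e (i : ℕ), p e (-1 - (i : ℤ)) = prv^[i] e.1.1 := by
    intro e i
    have : (-1 - (i : ℤ)) = Int.negSucc i := by
      rw [Int.negSucc_eq]
      ring
    rw [this]
  refine ⟨m1 * m2, Nat.mul_pos hm1 hm2, p, ?_, ?_, ?_, (i1 + i2 + 1 : ℕ), ?_⟩
  · intro e n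
    rcases lt_trichotomy n 0 with hn | hn | hn
    · obtain ⟨i, hi⟩ : ∃ i : ℕ, n = -1 - (i : ℤ) := ⟨(-n - 1).toNat, by omega⟩
      have e1 : n - 1 = -1 - ((i + 1 : ℕ) : ℤ) := by
        rw [hi]
        push_cast
        ring
      rw [e1, hi, hpm, hpm, Function.iterate_succ_apply']
      exact hprv _
    · subst hn
      have e1 : (0 : ℤ) - 1 = -1 - ((0 : ℕ) : ℤ) := by simp
      rw [e1, hpm]
      exact e.2
    · obtain ⟨i, hi⟩ : ∃ i : ℕ, n = ((i + 1 : ℕ) : ℤ) := ⟨(n - 1).toNat, by omega⟩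
      have e1 : n - 1 = ((i : ℕ) : ℤ) := by
        rw [hi]
        push_cast
        ring
      rw [e1, hi, hpp, hpp, Function.iterate_succ_apply']
      exact hnxt _
  · intro e
    exact hpm e 0
  · intro e
    rfl
  · intro e n hbn
    obtain ⟨N, hN⟩ : ∃ N : ℕ, n = (N : ℤ) := ⟨n.toNat, by omega⟩
    subst hN
    have hN1 : i1 + i2 + 1 ≤ N := by exact_mod_cast hbn
    constructor
    · have e1 : (N : ℤ) + ((m1 * m2 : ℕ) : ℤ) = ((N + m1 * m2 : ℕ) : ℤ) := by push_cast; ring
      rw [e1, hpp, hpp, h1 N (by omega) m2]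
    · have e1 : -(N : ℤ) - ((m1 * m2 : ℕ) : ℤ) = -1 - ((N - 1 + m2 * m1 : ℕ) : ℤ) := by
        have : ((N - 1 : ℕ) : ℤ) = (N : ℤ) - 1 := by omega
        push_cast [this]
        ring
      have e2 : -(N : ℤ) = -1 - ((N - 1 : ℕ) : ℤ) := by omega
      rw [e1, e2, hpm, hpm, h2 (N - 1) (by omega) m1]

theorem alg_iInter {X ι : Type} [Finite ι] {𝔅 : Set (Set X)} (h : IsAlg 𝔅) (f : ι → Set X)
    (hf : ∀ i, f i ∈ 𝔅) : (⋂ i, f i) ∈ 𝔅 := by
  have h1 : (⋂ i, f i) = (⋃ i ∈ (Set.univ : Set ι), (f i)ᶜ)ᶜ := by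
    ext x
    simp
  rw [h1]
  exact h.compl _ (h.biUnion Set.finite_univ _ fun i _ => h.compl _ (hf i))

/-- the elements of `(ℤ → Γ) ⋊ ℤ` whose function is periodic with period `m` near both ends -/
def EP (Γ : Type) [Group Γ] (m : ℕ) : Subgroup (U Γ) where
  carrier := {x | ∃ b : ℤ, ∀ n : ℤ, b ≤ n → x.f (n + m) = x.f n ∧ x.f (-n - m) = x.f (-n)}
  mul_mem' := by
    rintro x y ⟨b, hb⟩ ⟨b', hb'⟩
    refine ⟨max b (b' + |x.m|), fun n hn => ?_⟩
    have hn1 : b ≤ n := le_trans (le_max_left _ _) hn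
    have hn2 : b' + |x.m| ≤ n := le_trans (le_max_right _ _) hn
    have hm1 := le_abs_self x.m
    have hm2 := neg_abs_le x.m
    obtain ⟨h1, h2⟩ := hb n hn1
    obtain ⟨h3, -⟩ := hb' (n - x.m) (by linarith)
    obtain ⟨-, h4⟩ := hb' (n + x.m) (by linarith)
    have e1 : n + (m : ℤ) - x.m = n - x.m + m := by ring
    have e2 : -n - (m : ℤ) - x.m = -(n + x.m) - m := by ring
    have e3 : -n - x.m = -(n + x.m) := by ring
    constructor
    · rw [U.mul_f, U.mul_f, h1, e1, h3]
    · rw [U.mul_f, U.mul_f, h2, e2, h4, e3]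
  one_mem' := ⟨0, fun n _ => ⟨rfl, rfl⟩⟩
  inv_mem' := by
    rintro x ⟨b, hb⟩
    refine ⟨b + |x.m|, fun n hn => ?_⟩
    have hm1 := le_abs_self x.m
    have hm2 := neg_abs_le x.m
    obtain ⟨h3, -⟩ := hb (n + x.m) (by linarith)
    obtain ⟨-, h4⟩ := hb (n - x.m) (by linarith)
    have e1 : n + (m : ℤ) + x.m = n + x.m + m := by ring
    have e2 : -n - (m : ℤ) + x.m = -(n - x.m) - m := by ring
    have e3 : -n + x.m = -(n - x.m) := by ring
    constructor
    · rw [U.inv_f, U.inv_f, e1, h3]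
    · rw [U.inv_f, U.inv_f, e2, h4, e3]

theorem t_simp (h : S_CRIT) (h' : S_EPK) : S_SIMP := by
  classical
  intro C hC X Q A _ _ _ 𝔅 h𝔅 α hinv hα hA hQ
  set N : Subgroup (Simp h𝔅 A ⋊[α] Q) :=
    (SemidirectProduct.rightHom : Simp h𝔅 A ⋊[α] Q →* Q).ker with hN
  refine h C hC _ N ?_ ?_
  · exact hC.base.of_injective _ Q (QuotientGroup.kerLift _) (QuotientGroup.kerLift_injective _) hQ
  intro g E₀ hE₀ hE₀N
  rw [← SemidirectProduct.inl_left_mul_inr_right g]
  refine realized_mul' (N := N) ?_ ?_ E₀ hE₀ hE₀N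
  · show (SemidirectProduct.inl g.left : Simp h𝔅 A ⋊[α] Q).right = 1
    rfl
  intro E hE hEN
  clear hE₀N hE₀
  generalize g.right = q
  have hright : ∀ x ∈ E, x.right = 1 := fun x hx => hEN hx
  have hfE : Finite E := hE
  -- the values
  let ka : X → (E → A) := fun x e => ((e.1.left : Simp h𝔅 A) : X → A) x
  have hka : (Set.range ka).Finite := by
    refine (Set.Finite.pi' (t := fun e : E => Set.range ((e.1.left : Simp h𝔅 A) : X → A))
      (fun e : E => (e.1.left : Simp h𝔅 A).2.1)).subset ?_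
    rintro _ ⟨x, rfl⟩ e
    exact ⟨x, rfl⟩
  have hkaB : ∀ k, ka ⁻¹' {k} ∈ 𝔅 := by
    intro k
    have h1 : ka ⁻¹' {k} = ⋂ e : E, ((e.1.left : Simp h𝔅 A) : X → A) ⁻¹' {k e} := by
      ext x
      simp only [Set.mem_preimage, Set.mem_singleton_iff, Set.mem_iInter]
      exact funext_iff
    rw [h1]
    exact alg_iInter h𝔅 _ fun e => (e.1.left : Simp h𝔅 A).2.2 _
  let K : Type := ↥(Set.range ka)
  have hfK : Finite K := hka
  let kb : X → K := fun x => ⟨ka x, x, rfl⟩
  let ed : X → K × K := fun x => (kb (q⁻¹ • x), kb x)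
  have hed : ∀ e, ed ⁻¹' {e} ∈ 𝔅 := by
    rintro ⟨k, l⟩
    have h1 : ed ⁻¹' {(k, l)} = ((fun x => q⁻¹ • x) ⁻¹' (ka ⁻¹' {k.1})) ∩ ka ⁻¹' {l.1} := by
      ext x
      constructor
      · intro hx
        have h2 : ed x = (k, l) := hx
        have h3 : kb (q⁻¹ • x) = k := congrArg Prod.fst h2
        have h4 : kb x = l := congrArg Prod.snd h2
        exact ⟨congrArg Subtype.val h3, congrArg Subtype.val h4⟩
      · rintro ⟨h3, h4⟩
        exact Prod.ext (Subtype.ext h3) (Subtype.ext h4)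
    rw [h1]
    exact h𝔅.inter (hinv q⁻¹ _ (hkaB _)) (hkaB _)
  let R : K → K → Prop := fun k l => ∃ x, ed x = (k, l)
  obtain ⟨m, hm, p, p1, p2, p3, b, p4⟩ := exists_path R
    (by
      rintro ⟨_, x, rfl⟩
      refine ⟨kb (q • x), q • x, ?_⟩
      show (kb (q⁻¹ • q • x), kb (q • x)) = _
      rw [inv_smul_smul])
    (by
      rintro ⟨_, x, rfl⟩
      exact ⟨kb (q⁻¹ • x), x, rfl⟩)
  let Ed : Type := {e : K × K // R e.1 e.2}
  have hfEd : Finite Ed := Subtype.finite
  let edx : X → Ed := fun x => ⟨ed x, x, rfl⟩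
  have hedx : ∀ e : Ed, ∃ x, edx x = e := by
    rintro ⟨e, x, hx⟩
    exact ⟨x, Subtype.ext hx⟩
  let Γ : Type := Ed → A
  have hΓ : C Γ := pow_mem' C hC.base A hA Ed
  let J0 : Γ →* Simp h𝔅 A :=
    { toFun := fun F => ⟨fun x => F (edx x), by
        refine ⟨(Set.finite_range F).subset ?_, ?_⟩
        · rintro _ ⟨x, rfl⟩
          exact ⟨edx x, rfl⟩
        · intro a
          have h1 : (fun x => F (edx x)) ⁻¹' {a} =
              ed ⁻¹' (Subtype.val '' (F ⁻¹' {a})) := by
            ext x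
            constructor
            · intro hx
              exact ⟨edx x, hx, rfl⟩
            · rintro ⟨e, he, hxe⟩
              have : edx x = e := Subtype.ext hxe.symm
              show F (edx x) = a
              rw [this]
              exact he
          rw [h1]
          exact h𝔅.preimage (Set.toFinite _) hed _⟩
      map_one' := rfl
      map_mul' := fun F F' => rfl }
  let J : Γ →* Simp h𝔅 A ⋊[α] Q := SemidirectProduct.inl.comp J0
  have hJ : Function.Injective J := by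
    intro F F' hFF
    have h1 : J0 F = J0 F' := SemidirectProduct.inl_injective hFF
    funext e
    obtain ⟨x, rfl⟩ := hedx e
    exact congrFun (congrArg Subtype.val h1) x
  -- the elements of `E` and their conjugates
  let F1 : E → Γ := fun e d => d.1.2.1 e
  let F2 : E → Γ := fun e d => d.1.1.1 e
  have hF1 : ∀ e : E, J (F1 e) = e.1 := by
    intro e
    refine SemidirectProduct.ext ?_ (hright e.1 e.2).symm
    exact Subtype.ext (funext fun x => rfl)
  have hF2 : ∀ e : E, J (F2 e) =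
      (SemidirectProduct.inr q : Simp h𝔅 A ⋊[α] Q) * e.1 * (SemidirectProduct.inr q)⁻¹ := by
    intro e
    have h1 : e.1 = SemidirectProduct.inl e.1.left := by
      refine SemidirectProduct.ext rfl (hright e.1 e.2)
    rw [h1, ← map_inv, ← SemidirectProduct.inl_aut]
    show SemidirectProduct.inl (J0 (F2 e)) = _
    congr 1
    refine Subtype.ext (funext fun x => ?_)
    rw [hα]
    rfl
  let P : Type := ↥(EP Γ m)
  have hP : C P := h' C hC Γ m hm hΓ (EP Γ m) fun x hx => hx
  let Psi : Γ →* P :=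
    { toFun := fun F => ⟨⟨fun n d => F ⟨(p d (n - 1), p d n), p1 d n⟩, 0⟩, by
        refine ⟨b + 1, fun n hn => ?_⟩
        constructor
        · funext d
          have h1 := (p4 d (n - 1) (by linarith)).1
          have h2 := (p4 d n (by linarith)).1
          have e1 : n + (m : ℤ) - 1 = n - 1 + m := by ring
          apply congrArg F
          apply Subtype.ext
          show (p d (n + m - 1), p d (n + m)) = (p d (n - 1), p d n)
          rw [e1, h1, h2]
        · funext d
          have h1 := (p4 d (n + 1) (by linarith)).2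
          have h2 := (p4 d n (by linarith)).2
          have e1 : -n - (m : ℤ) - 1 = -(n + 1) - m := by ring
          have e2 : -n - 1 = -(n + 1) := by ring
          apply congrArg F
          apply Subtype.ext
          show (p d (-n - m - 1), p d (-n - m)) = (p d (-n - 1), p d (-n))
          rw [e1, h1, h2, e2]⟩
      map_one' := rfl
      map_mul' := fun F F' => by
        refine Subtype.ext (U.ext (funext fun n => ?_) ?_)
        · show (fun d => (F * F') _) = (fun d => F _) * fun d => F' _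
          funext d
          simp only [Pi.mul_apply, sub_zero]
          rfl
        · rfl }
  have hPsi : Function.Injective Psi := by
    intro F F' hFF
    funext d
    have h1 : (Psi F).1.f 0 d = (Psi F').1.f 0 d := by rw [hFF]
    have h2 : (⟨(p d (0 - 1), p d 0), p1 d 0⟩ : Ed) = d := by
      apply Subtype.ext
      show (p d (0 - 1), p d 0) = d.1
      rw [p3, zero_sub, p2]
    have h3 : F ⟨(p d (0 - 1), p d 0), p1 d 0⟩ = F' ⟨(p d (0 - 1), p d 0), p1 d 0⟩ := h1
    rwa [h2] at h3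
  have hle : Subgroup.closure (E ∪ (fun x => (SemidirectProduct.inr q : Simp h𝔅 A ⋊[α] Q) * x *
      (SemidirectProduct.inr q)⁻¹) '' E) ≤ J.range := by
    rw [Subgroup.closure_le]
    rintro x (hx | ⟨x, hx, rfl⟩)
    · exact ⟨F1 ⟨x, hx⟩, hF1 ⟨x, hx⟩⟩
    · exact ⟨F2 ⟨x, hx⟩, hF2 ⟨x, hx⟩⟩
  have hsymm : ∀ (F : Γ) (z : J.range), (z : Simp h𝔅 A ⋊[α] Q) = J F →
      (MonoidHom.ofInjective hJ).symm z = F := by
    intro F z hz
    rw [MulEquiv.symm_apply_eq]
    exact Subtype.ext hz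
  refine ⟨P, inferInstance,
    (Psi.comp (MonoidHom.ofInjective hJ).symm.toMonoidHom).comp (Subgroup.inclusion hle),
    ⟨⟨fun _ => 1, 1⟩, 0, fun n _ => ⟨rfl, rfl⟩⟩, hP, ?_, ?_⟩
  · exact (hPsi.comp (MonoidHom.ofInjective hJ).symm.injective).comp
      (Subgroup.inclusion_injective hle)
  · intro x y hx hy
    show Psi ((MonoidHom.ofInjective hJ).symm (Subgroup.inclusion hle y)) =
      _ * Psi ((MonoidHom.ofInjective hJ).symm (Subgroup.inclusion hle x)) * _
    rw [hsymm (F2 ⟨x, hx⟩) (Subgroup.inclusion hle y) (hy.trans (hF2 ⟨x, hx⟩).symm),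
      hsymm (F1 ⟨x, hx⟩) (Subgroup.inclusion hle x) (hF1 ⟨x, hx⟩).symm]
    refine Subtype.ext (U.ext (funext fun n => funext fun d => ?_) ?_)
    · show (p d (n - 1)).1 ⟨x, hx⟩ = _
      show _ = ((1 : Γ) * (fun d => (p d (n - 1)).1 ⟨x, hx⟩) * ((1 : Γ))⁻¹) d
      simp
    · show (0 : ℤ) = 1 + 0 + -1
      norm_num

end Pool.Agent.Y397.FJ
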